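import Pool.Agent.QSX.StmtsM

set_option autoImplicit false

namespace Pool.Agent.QSX.H69

open Filter Topology Pool.Agent.QSX

theorem nin : NinStmt := by
  intro G _ VX _ _ A Hs _ _ _ R b P D n hA hR hb hT hinv hspan hcon
  have hA0 : A 0 = 1 := by
    have h := hA 0 0
    rw [add_zero] at h
    exact (mul_eq_left.1 h.symm)
  have hcancel : ∀ a, A a * A (-a) = 1 := by
    intro a
    rw [← hA, add_neg_cancel, hA0]
  have hRcont : Continuous (R n) := (R n).continuous
  have hinv0 : Tendsto (fun j : ℕ => ((j : ℝ)⁻¹)) atTop (𝓝 0) := tendsto_inv_atTop_nhds_zero_nat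
  -- on `D`
  have hD : ∀ a ∈ D, R n (P a) = P a := by
    intro a ha
    obtain ⟨C', hC'⟩ := hcon a ha
    have hlim : Tendsto (fun j : ℕ => R n (((j : ℝ)⁻¹) • b (A ((j : ℝ) • a))) -
        ((j : ℝ)⁻¹) • b (A ((j : ℝ) • a))) atTop (𝓝 (R n (P a) - P a)) :=
      ((hRcont.tendsto _).comp (hT a)).sub (hT a)
    have hzero : Tendsto (fun j : ℕ => R n (((j : ℝ)⁻¹) • b (A ((j : ℝ) • a))) -
        ((j : ℝ)⁻¹) • b (A ((j : ℝ) • a))) atTop (𝓝 0) := by
      refine squeeze_zero_norm (a := fun j : ℕ => ((j : ℝ)⁻¹) * (‖b n‖ + C')) ?_ ?_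
      · intro j
        have e1 : b (n * A ((j : ℝ) • a)) = b n + R n (b (A ((j : ℝ) • a))) := hb _ _
        have e2 : n * A ((j : ℝ) • a) = A ((j : ℝ) • a) *
            (A (-((j : ℝ) • a)) * n * A ((j : ℝ) • a)) := by
          rw [← mul_assoc, ← mul_assoc, hcancel, one_mul]
        have e3 : b (n * A ((j : ℝ) • a)) = b (A ((j : ℝ) • a)) +
            R (A ((j : ℝ) • a)) (b (A (-((j : ℝ) • a)) * n * A ((j : ℝ) • a))) := by
          rw [e2]; exact hb _ _
        have e4 : R n (b (A ((j : ℝ) • a))) - b (A ((j : ℝ) • a)) =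
            R (A ((j : ℝ) • a)) (b (A (-((j : ℝ) • a)) * n * A ((j : ℝ) • a))) - b n := by
          rw [e1] at e3
          rw [sub_eq_sub_iff_add_eq_add, add_comm _ (b n), e3, add_comm]
        have e5 : ‖R n (b (A ((j : ℝ) • a))) - b (A ((j : ℝ) • a))‖ ≤ ‖b n‖ + C' := by
          rw [e4]
          refine (norm_sub_le _ _).trans ?_
          rw [(R (A ((j : ℝ) • a))).norm_map]
          linarith [hC' j]
        have hj : (0 : ℝ) ≤ ((j : ℝ)⁻¹) := inv_nonneg.2 (Nat.cast_nonneg j)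
        rw [(R n).map_smul, ← smul_sub, norm_smul, Real.norm_of_nonneg hj]
        exact mul_le_mul_of_nonneg_left e5 hj
      · have := hinv0.mul_const (‖b n‖ + C')
        rwa [zero_mul] at this
    exact sub_eq_zero.1 (tendsto_nhds_unique hlim hzero)
  have hall : ∀ a, R n (P a) = P a := by
    have hext : ((R n).toLinearMap.comp P) = P := by
      apply LinearMap.ext_on hspan
      intro a ha
      exact hD a ha
    intro a
    exact LinearMap.congr_fun hext a
  refine ⟨hall, ?_⟩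
  intro a
  have h1 : Tendsto (fun j : ℕ => ((j : ℝ)⁻¹) • b n + R n (((j : ℝ)⁻¹) • b (A ((j : ℝ) • a))))
      atTop (𝓝 ((0 : ℝ) • b n + R n (P a))) :=
    (hinv0.smul_const (b n)).add ((hRcont.tendsto _).comp (hT a))
  rw [zero_smul, zero_add, hall a] at h1
  refine h1.congr ?_
  intro j
  rw [hb, smul_add, (R n).map_smul]

end Pool.Agent.QSX.H69
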